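import Mathlib

/-!
# Haar measure need not minimise the mean cover time of growing random balls

Counterexample: the four-element group `(ZMod 2)^2` with the Hamming metric (a 4-cycle).
-/

namespace Pool.Agent.Results.MP_b215e8_pr.HaarNotOptimal

open MeasureTheory ProbabilityTheory Set
open scoped ENNReal NNReal Topology

section defs

variable {S : Type} [MetricSpace S]

/-- Arrival time of seed number `i`; `(ω i).1` are the interarrival times. -/
def arrival (ω : ℕ → ℝ × S) (i : ℕ) : ℝ := ∑ j ∈ Finset.range (i + 1), (ω j).1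

/-- The set covered at time `t`, balls growing at speed `v`. -/
def covered (v : ℝ) (ω : ℕ → ℝ × S) (t : ℝ) : Set S :=
  {x | ∃ i, arrival ω i ≤ t ∧ x ∈ Metric.closedBall (ω i).2 (v * (t - arrival ω i))}

/-- The cover time. -/
noncomputable def coverTime (v : ℝ) (ω : ℕ → ℝ × S) : ℝ :=
  sInf {t : ℝ | 0 ≤ t ∧ covered v ω t = univ}

/-- The law of the seeds: i.i.d. pairs (exponential interarrival time, location with law `μ`). -/
noncomputable def seedLaw [MeasurableSpace S] (lam : ℝ) (hlam : 0 < lam) (μ : Measure S)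
    [IsProbabilityMeasure μ] : Measure (ℕ → ℝ × S) :=
  haveI := isProbabilityMeasure_expMeasure hlam
  Measure.infinitePi fun _ : ℕ => (expMeasure lam).prod μ

/-- The mean cover time. -/
noncomputable def meanCover [MeasurableSpace S] (lam : ℝ) (hlam : 0 < lam) (v : ℝ) (μ : Measure S)
    [IsProbabilityMeasure μ] : ℝ≥0∞ :=
  ∫⁻ ω, ENNReal.ofReal (coverTime v ω) ∂(seedLaw lam hlam μ)

end defs

/-- The group `(ZMod 2)^2` with the Hamming metric. -/
abbrev Q : Type := Hamming (fun _ : Fin 2 => ZMod 2)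

instance : MeasurableSpace Q := borel Q
instance : BorelSpace Q := ⟨rfl⟩

/-- Natural-number valued distance. -/
def dd (x y : Q) : ℕ := hammingDist (Hamming.ofHamming x) (Hamming.ofHamming y)

theorem dist_dd (x y : Q) : dist x y = (dd x y : ℝ) := rfl

/-- The nonzero point at distance two of the origin. -/
def e : Q := Hamming.toHamming (fun _ => 1)

theorem dd_le (x y : Q) : dd x y = 0 ∨ dd x y = 1 ∨ dd x y = 2 := by
  revert x y; decide

theorem dd_anti (x y : Q) : dd y (x + e) + dd x y = 2 := by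
  revert x y; decide

theorem dd_anti' (x : Q) : dd x (x + e) = 2 := by
  revert x; decide

theorem dd_mid (x y : Q) (h : dd x y = 2) : ∃ z, dd x z = 1 ∧ dd y z = 1 := by
  revert x y; decide

theorem dd_self (x : Q) : dd x x = 0 := by
  revert x; decide

theorem dd_comm (x y : Q) : dd x y = dd y x := by
  revert x y; decide

theorem dd_two (x y : Q) (h : dd x y = 2) (z : Q) : z = y ∨ dd x z ≤ 1 := by
  revert x y z; decide

/-- Saving from a second seed at distance two. -/
noncomputable def k2 (u : ℝ) : ℝ := max 0 (2 - max 1 u)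

/-- Saving from a second seed at distance one. -/
noncomputable def k1 (u : ℝ) : ℝ := max 0 (1 - u)

theorem k2_nonneg (u : ℝ) : 0 ≤ k2 u := le_max_left _ _
theorem k1_nonneg (u : ℝ) : 0 ≤ k1 u := le_max_left _ _

theorem arrival_zero (ω : ℕ → ℝ × Q) : arrival ω 0 = (ω 0).1 := by
  simp [arrival]

theorem arrival_one (ω : ℕ → ℝ × Q) : arrival ω 1 = (ω 0).1 + (ω 1).1 := by
  simp [arrival, Finset.sum_range_succ]

theorem arrival_two (ω : ℕ → ℝ × Q) : arrival ω 2 = (ω 0).1 + (ω 1).1 + (ω 2).1 := by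
  simp [arrival, Finset.sum_range_succ]

theorem arrival_mono (ω : ℕ → ℝ × Q) (h : ∀ j, 0 < (ω j).1) : Monotone (arrival ω) := by
  refine monotone_nat_of_le_succ fun n => ?_
  unfold arrival
  rw [Finset.sum_range_succ (fun j => (ω j).1) (n + 1)]
  linarith [h (n + 1)]

theorem cover_mem_two (ω : ℕ → ℝ × Q) (h : ∀ j, 0 < (ω j).1) :
    (ω 0).1 + 2 ∈ {t : ℝ | 0 ≤ t ∧ covered 1 ω t = univ} := by
  have h0 := h 0
  refine ⟨by linarith, ?_⟩
  rw [eq_univ_iff_forall]
  intro x
  refine ⟨0, ?_, ?_⟩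
  · rw [arrival_zero]; linarith
  · rw [arrival_zero, Metric.mem_closedBall, dist_dd]
    have : (dd x (ω 0).2 : ℝ) ≤ 2 := by
      have : dd x (ω 0).2 ≤ 2 := by rcases dd_le x (ω 0).2 with h | h | h <;> omega
      exact_mod_cast this
    linarith

theorem bdd (ω : ℕ → ℝ × Q) : BddBelow {t : ℝ | 0 ≤ t ∧ covered 1 ω t = univ} :=
  ⟨0, fun _ ht => ht.1⟩

theorem coverTime_nonneg (ω : ℕ → ℝ × Q) : 0 ≤ coverTime 1 ω :=
  Real.sInf_nonneg fun _ ht => ht.1

/-- Upper bound of the cover time using the first two seeds. -/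
theorem upper (ω : ℕ → ℝ × Q) (h : ∀ j, 0 < (ω j).1) :
    coverTime 1 ω + (if dd (ω 0).2 (ω 1).2 = 2 then k2 (ω 1).1 else 0) ≤ (ω 0).1 + 2 := by
  split_ifs with hd
  · by_cases hu : (ω 1).1 < 2
    · have hk : k2 (ω 1).1 = 2 - max 1 (ω 1).1 := by
        unfold k2
        rw [max_eq_right]
        have : max 1 (ω 1).1 ≤ 2 := max_le (by norm_num) hu.le
        linarith
      rw [hk]
      have hmem : (ω 0).1 + max 1 (ω 1).1 ∈ {t : ℝ | 0 ≤ t ∧ covered 1 ω t = univ} := by
        have h0 := h 0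
        have h1 : (1 : ℝ) ≤ max 1 (ω 1).1 := le_max_left _ _
        have h2 : (ω 1).1 ≤ max 1 (ω 1).1 := le_max_right _ _
        refine ⟨by linarith, ?_⟩
        rw [eq_univ_iff_forall]
        intro x
        rcases dd_two (ω 0).2 (ω 1).2 hd x with hx | hx
        · refine ⟨1, ?_, ?_⟩
          · rw [arrival_one]; linarith
          · rw [hx, arrival_one]
            apply Metric.mem_closedBall_self
            linarith
        · refine ⟨0, ?_, ?_⟩
          · rw [arrival_zero]; linarith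
          · rw [arrival_zero, Metric.mem_closedBall, dist_dd, dd_comm]
            have : (dd (ω 0).2 x : ℝ) ≤ 1 := by exact_mod_cast hx
            linarith
      have := csInf_le (bdd ω) hmem
      unfold coverTime
      linarith
    · have hk : k2 (ω 1).1 = 0 := by
        unfold k2
        rw [max_eq_left]
        have : (ω 1).1 ≤ max 1 (ω 1).1 := le_max_right _ _
        linarith
      rw [hk, add_zero]
      exact csInf_le (bdd ω) (cover_mem_two ω h)
  · rw [add_zero]
    exact csInf_le (bdd ω) (cover_mem_two ω h)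

/-- Lower bound of the cover time. -/
theorem lower (ω : ℕ → ℝ × Q) (h : ∀ j, 0 < (ω j).1) :
    (ω 0).1 + 2 ≤ coverTime 1 ω + ((if dd (ω 0).2 (ω 1).2 = 2 then k2 (ω 1).1 else 0) +
      (if dd (ω 0).2 (ω 1).2 = 1 then k1 (ω 1).1 else 0)) +
      2 * ((if (ω 1).1 < 2 then 1 else 0) * (if (ω 2).1 < 2 then 1 else 0)) := by
  set H := (if dd (ω 0).2 (ω 1).2 = 2 then k2 (ω 1).1 else 0) +
      (if dd (ω 0).2 (ω 1).2 = 1 then k1 (ω 1).1 else 0) with hH
  have hH0 : 0 ≤ H := by
    rw [hH]
    refine add_nonneg ?_ ?_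
    · split_ifs
      · exact k2_nonneg _
      · exact le_rfl
    · split_ifs
      · exact k1_nonneg _
      · exact le_rfl
  suffices hs : (ω 0).1 + 2 - H -
      2 * ((if (ω 1).1 < 2 then 1 else 0) * (if (ω 2).1 < 2 then 1 else 0)) ≤ coverTime 1 ω by
    linarith
  refine le_csInf ⟨_, cover_mem_two ω h⟩ ?_
  rintro t ⟨ht0, ht⟩
  rw [eq_univ_iff_forall] at ht
  by_contra hlt
  push Not at hlt
  have hmono := arrival_mono ω h
  by_cases hI : (ω 1).1 < 2 ∧ (ω 2).1 < 2
  · rw [if_pos hI.1, if_pos hI.2] at hlt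
    obtain ⟨i, hi, _⟩ := ht 0
    have := hmono (Nat.zero_le i)
    rw [arrival_zero] at this
    linarith
  · have hI0 : ((if (ω 1).1 < 2 then (1 : ℝ) else 0) * (if (ω 2).1 < 2 then 1 else 0)) = 0 := by
      by_cases h1 : (ω 1).1 < 2
      · by_cases h2 : (ω 2).1 < 2
        · exact absurd ⟨h1, h2⟩ hI
        · rw [if_neg h2, mul_zero]
      · rw [if_neg h1, zero_mul]
    rw [hI0] at hlt
    have h0 := h 0
    have h1 := h 1
    have h2 := h 2
    have ha2 : (ω 0).1 + 2 ≤ arrival ω 2 := by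
      rw [arrival_two]
      by_cases h1' : (ω 1).1 < 2
      · have : ¬ (ω 2).1 < 2 := fun h2' => hI ⟨h1', h2'⟩
        push Not at this
        linarith
      · push Not at h1'
        linarith
    have htlt : t < (ω 0).1 + 2 := by linarith
    -- only the first two seeds matter
    have hcov : ∀ x : Q, ((dd (ω 0).2 x : ℝ) ≤ t - (ω 0).1) ∨
        ((ω 0).1 + (ω 1).1 ≤ t ∧ (dd (ω 1).2 x : ℝ) ≤ t - ((ω 0).1 + (ω 1).1)) := by
      intro x
      obtain ⟨i, hi, hx⟩ := ht x
      rw [Metric.mem_closedBall, dist_dd, dd_comm, one_mul] at hx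
      match i, hi, hx with
      | 0, hi, hx =>
        rw [arrival_zero] at hx
        exact Or.inl hx
      | 1, hi, hx =>
        rw [arrival_one] at hi hx
        exact Or.inr ⟨hi, hx⟩
      | (j + 2), hi, hx =>
        exfalso
        have := hmono (show 2 ≤ j + 2 by omega)
        linarith
    have hanti := hcov ((ω 0).2 + e)
    have hd0 : dd (ω 0).2 ((ω 0).2 + e) = 2 := dd_anti' _
    have hd1 : dd (ω 1).2 ((ω 0).2 + e) + dd (ω 0).2 (ω 1).2 = 2 := dd_anti _ _
    rw [hd0] at hanti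
    rcases hanti with ha | ⟨ha, hb⟩
    · push_cast at ha
      linarith
    · rcases dd_le (ω 0).2 (ω 1).2 with hd | hd | hd
      · have : dd (ω 1).2 ((ω 0).2 + e) = 2 := by omega
        rw [this] at hb
        push_cast at hb
        linarith
      · have h3 : dd (ω 1).2 ((ω 0).2 + e) = 1 := by omega
        rw [h3] at hb
        push_cast at hb
        have hHv : H = k1 (ω 1).1 := by rw [hH, hd]; simp
        have hk : 1 - (ω 1).1 ≤ k1 (ω 1).1 := le_max_right _ _
        rw [hHv] at hlt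
        linarith
      · have hHv : H = k2 (ω 1).1 := by rw [hH, hd]; simp
        have hk : 2 - max 1 (ω 1).1 ≤ k2 (ω 1).1 := le_max_right _ _
        have hlt2 : t < (ω 0).1 + max 1 (ω 1).1 := by
          rw [hHv] at hlt
          linarith
        have hlt3 : t < (ω 0).1 + 1 := by
          rcases max_choice 1 (ω 1).1 with hm | hm
          · rw [hm] at hlt2; exact hlt2
          · rw [hm] at hlt2; linarith
        obtain ⟨z, hz1, hz2⟩ := dd_mid _ _ hd
        rcases hcov z with hz | ⟨_, hz⟩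
        · rw [hz1] at hz; push_cast at hz; linarith
        · rw [hz2] at hz; push_cast at hz; linarith

/-! ### The exponential law -/

/-- The rate. -/
noncomputable def lam0 : ℝ := 1 / 1000

theorem lam0_pos : 0 < lam0 := by unfold lam0; norm_num

/-- The exponential law of rate `1/1000`. -/
noncomputable def nu : Measure ℝ := expMeasure lam0

instance : IsProbabilityMeasure nu := isProbabilityMeasure_expMeasure lam0_pos

theorem nu_Iic {x : ℝ} (hx : 0 ≤ x) : nu (Iic x) = ENNReal.ofReal (1 - Real.exp (-(lam0 * x))) := by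
  rw [← ofReal_cdf nu x, nu, cdf_expMeasure_eq lam0_pos, if_pos hx]

theorem nu_eq : nu = volume.withDensity (exponentialPDF lam0) := rfl

theorem meas_pdf : Measurable (exponentialPDF lam0) :=
  (measurable_exponentialPDFReal lam0).ennreal_ofReal

theorem nu_pos : ∀ᵐ u ∂nu, 0 < u := by
  rw [ae_iff]
  have h : {u : ℝ | ¬ 0 < u} = Iic 0 := by ext u; simp
  rw [h, nu_Iic le_rfl]
  simp

/-- Mean saving at distance one. -/
noncomputable def K1 : ℝ≥0∞ := ∫⁻ u, ENNReal.ofReal (k1 u) ∂nu

/-- Mean saving at distance two. -/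
noncomputable def K2 : ℝ≥0∞ := ∫⁻ u, ENNReal.ofReal (k2 u) ∂nu

theorem meas_k1 : Measurable fun u => ENNReal.ofReal (k1 u) := by
  unfold k1; fun_prop

theorem meas_k2 : Measurable fun u => ENNReal.ofReal (k2 u) := by
  unfold k2; fun_prop

theorem K1_le : K1 ≤ ENNReal.ofReal (lam0 / 2) := by
  unfold K1
  rw [nu_eq, lintegral_withDensity_eq_lintegral_mul _ meas_pdf meas_k1]
  have hpt : ∀ u : ℝ, (exponentialPDF lam0 * fun u => ENNReal.ofReal (k1 u)) u ≤
      (Icc (0 : ℝ) 1).indicator (fun u => ENNReal.ofReal (lam0 * (1 - u))) u := by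
    intro u
    simp only [Pi.mul_apply]
    by_cases hu : u ∈ Icc (0 : ℝ) 1
    · rw [indicator_of_mem hu, exponentialPDF_of_nonneg hu.1]
      have h1 : k1 u = 1 - u := by
        unfold k1
        exact max_eq_right (by linarith [hu.2])
      rw [h1, ← ENNReal.ofReal_mul (by
        have := lam0_pos
        positivity)]
      apply ENNReal.ofReal_le_ofReal
      have h2 : Real.exp (-(lam0 * u)) ≤ 1 := by
        rw [Real.exp_le_one_iff]
        have := mul_nonneg lam0_pos.le hu.1
        linarith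
      have h3 : 0 ≤ 1 - u := by linarith [hu.2]
      have h4 := lam0_pos
      calc lam0 * Real.exp (-(lam0 * u)) * (1 - u) ≤ lam0 * 1 * (1 - u) := by gcongr
        _ = lam0 * (1 - u) := by ring
    · rw [indicator_of_notMem hu]
      by_cases hu0 : u < 0
      · rw [exponentialPDF_of_neg hu0, zero_mul]
      · have h1 : k1 u = 0 := by
          unfold k1
          apply max_eq_left
          by_contra hcon
          exact hu ⟨not_lt.mp hu0, by linarith⟩
        rw [h1]
        simp
  calc ∫⁻ u, (exponentialPDF lam0 * fun u => ENNReal.ofReal (k1 u)) u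
      ≤ ∫⁻ u, (Icc (0 : ℝ) 1).indicator (fun u => ENNReal.ofReal (lam0 * (1 - u))) u :=
        lintegral_mono hpt
    _ = ∫⁻ u in Icc (0 : ℝ) 1, ENNReal.ofReal (lam0 * (1 - u)) := by
        rw [lintegral_indicator measurableSet_Icc]
    _ = ENNReal.ofReal (∫ u in Icc (0 : ℝ) 1, lam0 * (1 - u)) := by
        rw [ofReal_integral_eq_lintegral_ofReal]
        · exact (Continuous.continuousOn (by fun_prop)).integrableOn_Icc
        · refine (ae_restrict_iff' measurableSet_Icc).mpr (ae_of_all _ fun u hu => ?_)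
          have h3 : 0 ≤ 1 - u := by linarith [hu.2]
          exact mul_nonneg lam0_pos.le h3
    _ = ENNReal.ofReal (lam0 / 2) := by
        congr 1
        rw [integral_Icc_eq_integral_Ioc, ← intervalIntegral.integral_of_le zero_le_one]
        rw [intervalIntegral.integral_const_mul]
        rw [intervalIntegral.integral_sub (by simp) (by simp)]
        simp
        ring

theorem K2_ge : ENNReal.ofReal (12 / 10 * lam0) ≤ K2 := by
  have hpt : ∀ u : ℝ, (Iic (1 : ℝ)).indicator (fun _ => ENNReal.ofReal (1 / 2)) u +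
      (Iic (3 / 2 : ℝ)).indicator (fun _ => ENNReal.ofReal (1 / 2)) u ≤ ENNReal.ofReal (k2 u) := by
    intro u
    by_cases h1 : u ≤ 1
    · rw [indicator_of_mem (show u ∈ Iic (1 : ℝ) from h1),
        indicator_of_mem (show u ∈ Iic (3 / 2 : ℝ) from by
          show u ≤ 3 / 2
          linarith), ← ENNReal.ofReal_add (by norm_num) (by norm_num)]
      apply ENNReal.ofReal_le_ofReal
      unfold k2
      rw [max_eq_left h1]
      norm_num
    · rw [indicator_of_notMem (show u ∉ Iic (1 : ℝ) from h1), zero_add]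
      by_cases h2 : u ≤ 3 / 2
      · rw [indicator_of_mem (show u ∈ Iic (3 / 2 : ℝ) from h2)]
        apply ENNReal.ofReal_le_ofReal
        unfold k2
        rw [max_eq_right (not_le.mp h1).le]
        exact le_trans (by linarith) (le_max_right _ _)
      · rw [indicator_of_notMem (show u ∉ Iic (3 / 2 : ℝ) from h2)]
        exact zero_le
  have h := lintegral_mono (μ := nu) hpt
  rw [lintegral_add_left (measurable_const.indicator measurableSet_Iic),
    lintegral_indicator measurableSet_Iic, lintegral_indicator measurableSet_Iic,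
    setLIntegral_const, setLIntegral_const, nu_Iic zero_le_one, nu_Iic (by norm_num),
    ← ENNReal.ofReal_mul (by norm_num), ← ENNReal.ofReal_mul (by norm_num),
    ← ENNReal.ofReal_add] at h
  · refine le_trans ?_ h
    apply ENNReal.ofReal_le_ofReal
    have e1 : Real.exp (-(lam0 * 1)) ≤ 1 / (1 + lam0) := by
      rw [Real.exp_neg, ← one_div]
      have hp : 0 < 1 + lam0 := by linarith [lam0_pos]
      apply one_div_le_one_div_of_le hp
      have := Real.add_one_le_exp (lam0 * 1)
      linarith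
    have e2 : Real.exp (-(lam0 * (3 / 2))) ≤ 1 / (1 + lam0 * (3 / 2)) := by
      rw [Real.exp_neg, ← one_div]
      have hp : 0 < 1 + lam0 * (3 / 2) := by linarith [lam0_pos]
      apply one_div_le_one_div_of_le hp
      have := Real.add_one_le_exp (lam0 * (3 / 2))
      linarith
    have e3 : (1 : ℝ) / (1 + lam0) = 1000 / 1001 := by unfold lam0; norm_num
    have e4 : (1 : ℝ) / (1 + lam0 * (3 / 2)) = 2000 / 2003 := by unfold lam0; norm_num
    rw [e3] at e1
    rw [e4] at e2
    unfold lam0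
    unfold lam0 at e1 e2
    linarith
  · have : Real.exp (-(lam0 * 1)) ≤ 1 := by
      rw [Real.exp_le_one_iff]
      linarith [lam0_pos]
    linarith
  · have : Real.exp (-(lam0 * (3 / 2))) ≤ 1 := by
      rw [Real.exp_le_one_iff]
      linarith [lam0_pos]
    linarith

theorem K2_ne_top : K2 ≠ ⊤ := by
  refine ne_top_of_le_ne_top ENNReal.one_ne_top ?_
  unfold K2
  calc ∫⁻ u, ENNReal.ofReal (k2 u) ∂nu ≤ ∫⁻ _, 1 ∂nu := by
        apply lintegral_mono
        intro u
        rw [← ENNReal.ofReal_one]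
        apply ENNReal.ofReal_le_ofReal
        unfold k2
        apply max_le zero_le_one
        have : (1 : ℝ) ≤ max 1 u := le_max_left _ _
        linarith
    _ = 1 := by simp

theorem nu_lt_two : nu (Iio 2) ≤ ENNReal.ofReal (2 * lam0) := by
  calc nu (Iio 2) ≤ nu (Iic 2) := measure_mono Iio_subset_Iic_self
    _ = ENNReal.ofReal (1 - Real.exp (-(lam0 * 2))) := nu_Iic (by norm_num)
    _ ≤ ENNReal.ofReal (2 * lam0) := by
        apply ENNReal.ofReal_le_ofReal
        have := Real.add_one_le_exp (-(lam0 * 2))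
        linarith

theorem mean_ne_top : ∫⁻ u, ENNReal.ofReal u ∂nu ≠ ⊤ := by
  rw [nu_eq, lintegral_withDensity_eq_lintegral_mul _ meas_pdf ENNReal.measurable_ofReal]
  have hpt : ∀ u : ℝ, (exponentialPDF lam0 * fun u => ENNReal.ofReal u) u ≤
      ENNReal.ofReal (4 / lam0) * exponentialPDF (lam0 / 2) u := by
    intro u
    simp only [Pi.mul_apply]
    by_cases hu : u < 0
    · rw [exponentialPDF_of_neg hu, zero_mul]
      exact zero_le
    · push Not at hu
      have h4 := lam0_pos
      rw [exponentialPDF_of_nonneg hu, exponentialPDF_of_nonneg hu,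
        ← ENNReal.ofReal_mul (by positivity), ← ENNReal.ofReal_mul (by positivity)]
      apply ENNReal.ofReal_le_ofReal
      have h1 : lam0 * u / 2 ≤ Real.exp (lam0 * u / 2) := by
        have := Real.add_one_le_exp (lam0 * u / 2)
        linarith
      have h2 : Real.exp (-(lam0 * u)) =
          Real.exp (-(lam0 / 2 * u)) * Real.exp (-(lam0 * u / 2)) := by
        rw [← Real.exp_add]
        congr 1
        ring
      have h3 : Real.exp (lam0 * u / 2) * Real.exp (-(lam0 * u / 2)) = 1 := by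
        rw [← Real.exp_add]
        simp
      have h5 : 0 < Real.exp (-(lam0 / 2 * u)) := Real.exp_pos _
      have h6 : 0 < Real.exp (-(lam0 * u / 2)) := Real.exp_pos _
      calc lam0 * Real.exp (-(lam0 * u)) * u
          = 2 * Real.exp (-(lam0 / 2 * u)) * ((lam0 * u / 2) * Real.exp (-(lam0 * u / 2))) := by
            rw [h2]; ring
        _ ≤ 2 * Real.exp (-(lam0 / 2 * u)) *
              (Real.exp (lam0 * u / 2) * Real.exp (-(lam0 * u / 2))) := by gcongr
        _ = 2 * Real.exp (-(lam0 / 2 * u)) := by rw [h3, mul_one]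
        _ = 4 / lam0 * (lam0 / 2 * Real.exp (-(lam0 / 2 * u))) := by
            field_simp
            ring
  refine ne_top_of_le_ne_top ?_ (lintegral_mono hpt)
  have hm : Measurable (exponentialPDF (lam0 / 2)) :=
    (measurable_exponentialPDFReal _).ennreal_ofReal
  rw [lintegral_const_mul _ hm,
    lintegral_exponentialPDF_eq_one (by linarith [lam0_pos]), mul_one]
  exact ENNReal.ofReal_ne_top

/-! ### Expectations under the seed law -/

section expectations

variable (μ : Measure Q) [IsProbabilityMeasure μ]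

/-- The seed law for the rate `lam0`. -/
noncomputable def PP : Measure (ℕ → ℝ × Q) := Measure.infinitePi fun _ : ℕ => nu.prod μ

instance : IsProbabilityMeasure (PP μ) := by unfold PP; infer_instance

theorem seedLaw_eq : seedLaw lam0 lam0_pos μ = PP μ := rfl

theorem PP_map (i : ℕ) : (PP μ).map (fun ω => ω i) = nu.prod μ :=
  Measure.infinitePi_map_eval (fun _ : ℕ => nu.prod μ) i

theorem PP_map2 {i j : ℕ} (hij : i ≠ j) :
    (PP μ).map (fun ω => (ω i, ω j)) = (nu.prod μ).prod (nu.prod μ) :=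
  Measure.infinitePi_map_eval_prod (P := fun _ : ℕ => nu.prod μ) hij

theorem PP_pos : ∀ᵐ ω ∂(PP μ), ∀ j, 0 < (ω j).1 := by
  rw [ae_all_iff]
  intro j
  have h1 : ∀ᵐ z ∂(nu.prod μ), 0 < z.1 := by
    have h2 := nu_pos
    rw [ae_iff] at h2 ⊢
    have : {a : ℝ × Q | ¬ 0 < a.1} = {a : ℝ | ¬ 0 < a} ×ˢ univ := by ext; simp
    rw [this, Measure.prod_prod, h2, zero_mul]
  have h3 := PP_map μ j
  rw [← h3] at h1
  exact ae_of_ae_map (measurable_pi_apply j).aemeasurable h1

theorem lint_first : ∫⁻ ω, ENNReal.ofReal (ω 0).1 ∂(PP μ) = ∫⁻ u, ENNReal.ofReal u ∂nu := by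
  have h : ∫⁻ ω, ENNReal.ofReal (ω 0).1 ∂(PP μ)
      = ∫⁻ z, ENNReal.ofReal z.1 ∂((PP μ).map (fun ω => ω 0)) := by
    rw [lintegral_map (by fun_prop) (by fun_prop)]
  rw [h, PP_map]
  have h2 := lintegral_prod_mul (μ := nu) (ν := μ) (f := fun u => ENNReal.ofReal u)
    (g := fun _ => 1) (by fun_prop) (by fun_prop)
  simpa using h2

theorem lint_pair (d : ℕ) (f : ℝ → ℝ≥0∞) (hf : Measurable f) :
    ∫⁻ ω, (if dd (ω 0).2 (ω 1).2 = d then f (ω 1).1 else 0) ∂(PP μ) =
      (∫⁻ u, f u ∂nu) * ∫⁻ x, μ {y | dd x y = d} ∂μ := by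
  classical
  have hset : MeasurableSet {z : (ℝ × Q) × (ℝ × Q) | dd z.1.2 z.2.2 = d} := by
    have hm : Measurable fun z : (ℝ × Q) × (ℝ × Q) => (z.1.2, z.2.2) := by fun_prop
    exact hm (Set.toFinite {w : Q × Q | dd w.1 w.2 = d}).measurableSet
  have hF : Measurable fun z : (ℝ × Q) × (ℝ × Q) =>
      (if dd z.1.2 z.2.2 = d then f z.2.1 else 0) :=
    Measurable.ite hset (by fun_prop) measurable_const
  have h : ∫⁻ ω, (if dd (ω 0).2 (ω 1).2 = d then f (ω 1).1 else 0) ∂(PP μ)
      = ∫⁻ z, (if dd z.1.2 z.2.2 = d then f z.2.1 else 0)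
        ∂((PP μ).map (fun ω => (ω 0, ω 1))) := by
    rw [lintegral_map hF (by fun_prop)]
  rw [h, PP_map2 μ zero_ne_one, lintegral_prod _ hF.aemeasurable]
  have hin : ∀ a : ℝ × Q, ∫⁻ b : ℝ × Q, (if dd a.2 b.2 = d then f b.1 else 0) ∂(nu.prod μ)
      = (∫⁻ u, f u ∂nu) * μ {y | dd a.2 y = d} := by
    intro a
    have hs : MeasurableSet {y : Q | dd a.2 y = d} := (Set.toFinite _).measurableSet
    have h2 := lintegral_prod_mul (μ := nu) (ν := μ) (f := f)
      (g := fun y => {y | dd a.2 y = d}.indicator 1 y) hf.aemeasurable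
      ((measurable_one.indicator hs).aemeasurable)
    rw [lintegral_indicator_one hs] at h2
    rw [← h2]
    refine lintegral_congr fun b => ?_
    by_cases hb : dd a.2 b.2 = d
    · rw [if_pos hb, indicator_of_mem (show b.2 ∈ {y | dd a.2 y = d} from hb)]
      simp
    · rw [if_neg hb, indicator_of_notMem (show b.2 ∉ {y | dd a.2 y = d} from hb)]
      simp
  simp only [hin]
  have hg : Measurable fun x : Q => μ {y | dd x y = d} := Measurable.of_discrete
  rw [lintegral_const_mul _ (by fun_prop)]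
  congr 1
  have h3 := lintegral_prod_mul (μ := nu) (ν := μ) (f := fun _ => 1)
    (g := fun x => μ {y | dd x y = d}) (by fun_prop) hg.aemeasurable
  simpa using h3

theorem lint_both : ∫⁻ ω, ((Iio (2 : ℝ)).indicator 1 (ω 1).1) * ((Iio (2 : ℝ)).indicator 1 (ω 2).1)
    ∂(PP μ) = nu (Iio 2) * nu (Iio 2) := by
  have hi : Measurable fun u : ℝ => (Iio (2 : ℝ)).indicator (1 : ℝ → ℝ≥0∞) u :=
    measurable_one.indicator measurableSet_Iio
  have h : ∫⁻ ω, ((Iio (2 : ℝ)).indicator (1 : ℝ → ℝ≥0∞) (ω 1).1) *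
      ((Iio (2 : ℝ)).indicator (1 : ℝ → ℝ≥0∞) (ω 2).1) ∂(PP μ)
      = ∫⁻ z, ((Iio (2 : ℝ)).indicator (1 : ℝ → ℝ≥0∞) z.1.1) *
        ((Iio (2 : ℝ)).indicator (1 : ℝ → ℝ≥0∞) z.2.1)
        ∂((PP μ).map (fun ω => (ω 1, ω 2))) := by
    rw [lintegral_map (by fun_prop) (by fun_prop)]
  have h1 : ∫⁻ a, ((Iio (2 : ℝ)).indicator (1 : ℝ → ℝ≥0∞) a.1) ∂(nu.prod μ) = nu (Iio 2) := by
    have h3 := lintegral_prod_mul (μ := nu) (ν := μ)
      (f := fun u => (Iio (2 : ℝ)).indicator (1 : ℝ → ℝ≥0∞) u)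
      (g := fun _ => 1) hi.aemeasurable (by fun_prop)
    rw [lintegral_indicator_one measurableSet_Iio] at h3
    simpa using h3
  rw [h, PP_map2 μ (by norm_num : (1 : ℕ) ≠ 2)]
  rw [lintegral_prod_mul (f := fun a : ℝ × Q => (Iio (2 : ℝ)).indicator (1 : ℝ → ℝ≥0∞) a.1)
    (g := fun a : ℝ × Q => (Iio (2 : ℝ)).indicator (1 : ℝ → ℝ≥0∞) a.1)
    (by fun_prop) (by fun_prop), h1]

theorem upper_mean : meanCover lam0 lam0_pos 1 μ + K2 * ∫⁻ x, μ {y | dd x y = 2} ∂μ ≤
    (∫⁻ u, ENNReal.ofReal u ∂nu) + 2 := by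
  have hset : MeasurableSet {ω : ℕ → ℝ × Q | dd (ω 0).2 (ω 1).2 = 2} := by
    have hm : Measurable fun ω : ℕ → ℝ × Q => ((ω 0).2, (ω 1).2) := by fun_prop
    exact hm (Set.toFinite {w : Q × Q | dd w.1 w.2 = 2}).measurableSet
  have hm2 : Measurable fun ω : ℕ → ℝ × Q =>
      (if dd (ω 0).2 (ω 1).2 = 2 then ENNReal.ofReal (k2 (ω 1).1) else 0) :=
    Measurable.ite hset (meas_k2.comp (by fun_prop)) measurable_const
  unfold meanCover
  rw [seedLaw_eq, K2, ← lint_pair μ 2 _ meas_k2, ← lint_first μ]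
  calc ∫⁻ ω, ENNReal.ofReal (coverTime 1 ω) ∂(PP μ) +
      ∫⁻ ω, (if dd (ω 0).2 (ω 1).2 = 2 then ENNReal.ofReal (k2 (ω 1).1) else 0) ∂(PP μ)
      = ∫⁻ ω, (ENNReal.ofReal (coverTime 1 ω) +
        (if dd (ω 0).2 (ω 1).2 = 2 then ENNReal.ofReal (k2 (ω 1).1) else 0)) ∂(PP μ) :=
        (lintegral_add_right _ hm2).symm
    _ ≤ ∫⁻ ω, (ENNReal.ofReal (ω 0).1 + 2) ∂(PP μ) := by
        refine lintegral_mono_ae ?_
        filter_upwards [PP_pos μ] with ω hω
        have h := upper ω hω
        have hc := coverTime_nonneg ω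
        have h0 := (hω 0).le
        have e1 : (if dd (ω 0).2 (ω 1).2 = 2 then ENNReal.ofReal (k2 (ω 1).1) else 0)
            = ENNReal.ofReal (if dd (ω 0).2 (ω 1).2 = 2 then k2 (ω 1).1 else 0) := by
          split_ifs <;> simp
        have e2 : (0 : ℝ) ≤ (if dd (ω 0).2 (ω 1).2 = 2 then k2 (ω 1).1 else 0) := by
          split_ifs
          · exact k2_nonneg _
          · exact le_rfl
        rw [e1, ← ENNReal.ofReal_add hc e2]
        have e3 : ENNReal.ofReal (ω 0).1 + 2 = ENNReal.ofReal ((ω 0).1 + 2) := by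
          rw [ENNReal.ofReal_add h0 (by norm_num)]
          norm_num
        rw [e3]
        exact ENNReal.ofReal_le_ofReal h
    _ = ∫⁻ ω, ENNReal.ofReal (ω 0).1 ∂(PP μ) + 2 := by
        rw [lintegral_add_right _ measurable_const]
        simp

theorem lower_mean : (∫⁻ u, ENNReal.ofReal u ∂nu) + 2 ≤ meanCover lam0 lam0_pos 1 μ +
    (K2 * (∫⁻ x, μ {y | dd x y = 2} ∂μ) + K1 * (∫⁻ x, μ {y | dd x y = 1} ∂μ)) +
      2 * (nu (Iio 2) * nu (Iio 2)) := by
  have hset : ∀ d, MeasurableSet {ω : ℕ → ℝ × Q | dd (ω 0).2 (ω 1).2 = d} := by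
    intro d
    have hm : Measurable fun ω : ℕ → ℝ × Q => ((ω 0).2, (ω 1).2) := by fun_prop
    exact hm (Set.toFinite {w : Q × Q | dd w.1 w.2 = d}).measurableSet
  have hm2 : Measurable fun ω : ℕ → ℝ × Q =>
      (if dd (ω 0).2 (ω 1).2 = 2 then ENNReal.ofReal (k2 (ω 1).1) else 0) :=
    Measurable.ite (hset 2) (meas_k2.comp (by fun_prop)) measurable_const
  have hm1 : Measurable fun ω : ℕ → ℝ × Q =>
      (if dd (ω 0).2 (ω 1).2 = 1 then ENNReal.ofReal (k1 (ω 1).1) else 0) :=
    Measurable.ite (hset 1) (meas_k1.comp (by fun_prop)) measurable_const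
  have hi : Measurable fun u : ℝ => (Iio (2 : ℝ)).indicator (1 : ℝ → ℝ≥0∞) u :=
    measurable_one.indicator measurableSet_Iio
  have hm3 : Measurable fun ω : ℕ → ℝ × Q => ((Iio (2 : ℝ)).indicator (1 : ℝ → ℝ≥0∞) (ω 1).1) *
      ((Iio (2 : ℝ)).indicator (1 : ℝ → ℝ≥0∞) (ω 2).1) := by fun_prop
  unfold meanCover
  rw [seedLaw_eq, K2, K1, ← lint_pair μ 2 _ meas_k2, ← lint_pair μ 1 _ meas_k1, ← lint_first μ,
    ← lint_both μ]
  calc ∫⁻ ω, ENNReal.ofReal (ω 0).1 ∂(PP μ) + 2
      = ∫⁻ ω, (ENNReal.ofReal (ω 0).1 + 2) ∂(PP μ) := by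
        rw [lintegral_add_right _ measurable_const]
        simp
    _ ≤ ∫⁻ ω, ((ENNReal.ofReal (coverTime 1 ω) +
        ((if dd (ω 0).2 (ω 1).2 = 2 then ENNReal.ofReal (k2 (ω 1).1) else 0) +
        (if dd (ω 0).2 (ω 1).2 = 1 then ENNReal.ofReal (k1 (ω 1).1) else 0))) +
        2 * (((Iio (2 : ℝ)).indicator (1 : ℝ → ℝ≥0∞) (ω 1).1) *
          ((Iio (2 : ℝ)).indicator (1 : ℝ → ℝ≥0∞) (ω 2).1))) ∂(PP μ) := by
        refine lintegral_mono_ae ?_
        filter_upwards [PP_pos μ] with ω hω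
        have h := lower ω hω
        have hc := coverTime_nonneg ω
        have h0 := (hω 0).le
        have e1 : (if dd (ω 0).2 (ω 1).2 = 2 then ENNReal.ofReal (k2 (ω 1).1) else 0)
            = ENNReal.ofReal (if dd (ω 0).2 (ω 1).2 = 2 then k2 (ω 1).1 else 0) := by
          split_ifs <;> simp
        have e1' : (if dd (ω 0).2 (ω 1).2 = 1 then ENNReal.ofReal (k1 (ω 1).1) else 0)
            = ENNReal.ofReal (if dd (ω 0).2 (ω 1).2 = 1 then k1 (ω 1).1 else 0) := by
          split_ifs <;> simp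
        have e2 : (0 : ℝ) ≤ (if dd (ω 0).2 (ω 1).2 = 2 then k2 (ω 1).1 else 0) := by
          split_ifs
          · exact k2_nonneg _
          · exact le_rfl
        have e2' : (0 : ℝ) ≤ (if dd (ω 0).2 (ω 1).2 = 1 then k1 (ω 1).1 else 0) := by
          split_ifs
          · exact k1_nonneg _
          · exact le_rfl
        have e4 : ((Iio (2 : ℝ)).indicator (1 : ℝ → ℝ≥0∞) (ω 1).1) *
            ((Iio (2 : ℝ)).indicator (1 : ℝ → ℝ≥0∞) (ω 2).1) =
            ENNReal.ofReal ((if (ω 1).1 < 2 then 1 else 0) * (if (ω 2).1 < 2 then 1 else 0)) := by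
          by_cases a : (ω 1).1 < 2 <;> by_cases b : (ω 2).1 < 2 <;>
            simp [a, b, indicator]
        have e5 : (0 : ℝ) ≤ ((if (ω 1).1 < 2 then 1 else 0) * (if (ω 2).1 < 2 then 1 else 0)) := by
          split_ifs <;> simp
        have e6 : (2 : ℝ≥0∞) = ENNReal.ofReal 2 := by norm_num
        rw [e1, e1', e4, ← ENNReal.ofReal_add e2 e2', ← ENNReal.ofReal_add hc (add_nonneg e2 e2'),
          e6, ← ENNReal.ofReal_mul (by norm_num), ← ENNReal.ofReal_add
            (add_nonneg hc (add_nonneg e2 e2')) (by positivity),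
          ← ENNReal.ofReal_add h0 (by norm_num)]
        exact ENNReal.ofReal_le_ofReal h
    _ = _ := by
        have hm21 : Measurable fun ω : ℕ → ℝ × Q =>
            ((if dd (ω 0).2 (ω 1).2 = 2 then ENNReal.ofReal (k2 (ω 1).1) else 0) +
            (if dd (ω 0).2 (ω 1).2 = 1 then ENNReal.ofReal (k1 (ω 1).1) else 0)) := hm2.add hm1
        rw [lintegral_add_right _ (hm3.const_mul 2), lintegral_add_right _ hm21,
          lintegral_add_left hm2, lintegral_const_mul _ hm3]

end expectations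

/-- The uniform law on the two antipodal points `0` and `e`. -/
noncomputable def muTwo : Measure Q :=
  (2 : ℝ≥0∞)⁻¹ • Measure.dirac 0 + (2 : ℝ≥0∞)⁻¹ • Measure.dirac e

/-- The uniform law (Haar probability measure). -/
noncomputable def haarQ : Measure Q := (4 : ℝ≥0∞)⁻¹ • Measure.count

instance : IsProbabilityMeasure muTwo := ⟨by
  simp [muTwo, ENNReal.inv_two_add_inv_two]⟩

theorem haarQ_apply (A : Finset Q) : haarQ (A : Set Q) = (4 : ℝ≥0∞)⁻¹ * (A.card : ℝ≥0∞) := by
  simp [haarQ, Measure.count_apply_finset]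

theorem card_Q : (Finset.univ : Finset Q).card = 4 := by decide

instance : IsProbabilityMeasure haarQ := ⟨by
  have h := haarQ_apply Finset.univ
  rw [card_Q, Finset.coe_univ] at h
  rw [h]
  push_cast
  exact ENNReal.inv_mul_cancel (by norm_num) (by norm_num)⟩

theorem card_d2 : ∀ x : Q, (Finset.univ.filter fun y => dd x y = 2).card = 1 := by decide

theorem card_d1 : ∀ x : Q, (Finset.univ.filter fun y => dd x y = 1).card = 2 := by decide

theorem haar_two : ∫⁻ x, haarQ {y | dd x y = 2} ∂haarQ = (4 : ℝ≥0∞)⁻¹ := by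
  have h : ∀ x : Q, haarQ {y | dd x y = 2} = (4 : ℝ≥0∞)⁻¹ := by
    intro x
    have h1 := haarQ_apply (Finset.univ.filter fun y => dd x y = 2)
    rw [card_d2 x] at h1
    simpa using h1
  simp [h]

theorem haar_one : ∫⁻ x, haarQ {y | dd x y = 1} ∂haarQ = (2 : ℝ≥0∞)⁻¹ := by
  have h : ∀ x : Q, haarQ {y | dd x y = 1} = (2 : ℝ≥0∞)⁻¹ := by
    intro x
    have h1 := haarQ_apply (Finset.univ.filter fun y => dd x y = 1)
    rw [card_d1 x] at h1
    have h3 : (4 : ℝ≥0∞)⁻¹ * ((2 : ℕ) : ℝ≥0∞) = (2 : ℝ≥0∞)⁻¹ := by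
      have : (4 : ℝ≥0∞) = 2 * 2 := by norm_num
      rw [this, ENNReal.mul_inv (by norm_num) (by norm_num), mul_assoc]
      push_cast
      rw [ENNReal.inv_mul_cancel (by norm_num) (by norm_num), mul_one]
    rw [h3] at h1
    simpa using h1
  simp [h]

theorem mu_two : ∫⁻ x, muTwo {y | dd x y = 2} ∂muTwo = (2 : ℝ≥0∞)⁻¹ := by
  have hm : ∀ x : Q, muTwo {y | dd x y = 2} = (2 : ℝ≥0∞)⁻¹ * (if dd x 0 = 2 then 1 else 0) +
      (2 : ℝ≥0∞)⁻¹ * (if dd x e = 2 then 1 else 0) := by
    intro x
    have hs : MeasurableSet {y : Q | dd x y = 2} := (Set.toFinite _).measurableSet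
    unfold muTwo
    rw [Measure.add_apply, Measure.smul_apply, Measure.smul_apply, Measure.dirac_apply' _ hs,
      Measure.dirac_apply' _ hs]
    simp [indicator]
  have h0 : dd 0 0 ≠ 2 := by decide
  have h1 : dd 0 e = 2 := by decide
  have h2 : dd e 0 = 2 := by decide
  have h3 : dd e e ≠ 2 := by decide
  have hI : ∀ g : Q → ℝ≥0∞, ∫⁻ x, g x ∂muTwo = (2 : ℝ≥0∞)⁻¹ * g 0 + (2 : ℝ≥0∞)⁻¹ * g e := by
    intro g
    unfold muTwo
    rw [lintegral_add_measure, lintegral_smul_measure, lintegral_smul_measure,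
      lintegral_dirac, lintegral_dirac]
    rfl
  rw [hI, hm, hm]
  simp only [h0, h1, h2, h3, if_true, if_false, mul_zero, mul_one, add_zero, zero_add]
  rw [← mul_add, ENNReal.inv_two_add_inv_two, mul_one]

theorem main : meanCover lam0 lam0_pos 1 muTwo < meanCover lam0 lam0_pos 1 haarQ := by
  have hU := upper_mean muTwo
  have hL := lower_mean haarQ
  rw [mu_two] at hU
  rw [haar_two, haar_one] at hL
  have hA : K2 * 4⁻¹ + K1 * 2⁻¹ + 2 * (nu (Iio 2) * nu (Iio 2)) < K2 * 2⁻¹ := by
    have e1 : (2 : ℝ≥0∞)⁻¹ = 4⁻¹ + 4⁻¹ := by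
      have : (4 : ℝ≥0∞) = 2 * 2 := by norm_num
      rw [this, ENNReal.mul_inv (by norm_num) (by norm_num), ← mul_add,
        ENNReal.inv_two_add_inv_two, mul_one]
    have e2 : K2 * 2⁻¹ = K2 * 4⁻¹ + K2 * 4⁻¹ := by rw [e1, mul_add]
    rw [e2, add_assoc]
    apply ENNReal.add_lt_add_left
    · exact ENNReal.mul_ne_top K2_ne_top (by simp)
    · have b1 : K1 * 2⁻¹ ≤ ENNReal.ofReal (lam0 / 4) := by
        calc K1 * 2⁻¹ ≤ ENNReal.ofReal (lam0 / 2) * 2⁻¹ := by gcongr; exact K1_le
          _ = ENNReal.ofReal (lam0 / 2) * ENNReal.ofReal (1 / 2) := by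
              congr 1
              rw [one_div, ENNReal.ofReal_inv_of_pos (by norm_num)]
              norm_num
          _ = ENNReal.ofReal (lam0 / 4) := by
              rw [← ENNReal.ofReal_mul (by linarith [lam0_pos])]
              congr 1
              ring
      have b2 : 2 * (nu (Iio 2) * nu (Iio 2)) ≤ ENNReal.ofReal (8 * lam0 ^ 2) := by
        calc 2 * (nu (Iio 2) * nu (Iio 2))
            ≤ ENNReal.ofReal 2 * (ENNReal.ofReal (2 * lam0) * ENNReal.ofReal (2 * lam0)) := by
              gcongr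
              · norm_num
              · exact nu_lt_two
              · exact nu_lt_two
          _ = ENNReal.ofReal (8 * lam0 ^ 2) := by
              rw [← ENNReal.ofReal_mul (by linarith [lam0_pos]),
                ← ENNReal.ofReal_mul (by norm_num)]
              congr 1
              ring
      have b3 : ENNReal.ofReal (3 / 10 * lam0) ≤ K2 * 4⁻¹ := by
        calc ENNReal.ofReal (3 / 10 * lam0)
            = ENNReal.ofReal (12 / 10 * lam0) * ENNReal.ofReal (1 / 4) := by
              rw [← ENNReal.ofReal_mul (by linarith [lam0_pos])]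
              congr 1
              ring
          _ = ENNReal.ofReal (12 / 10 * lam0) * 4⁻¹ := by
              congr 1
              rw [one_div, ENNReal.ofReal_inv_of_pos (by norm_num)]
              norm_num
          _ ≤ K2 * 4⁻¹ := by gcongr; exact K2_ge
      calc K1 * 2⁻¹ + 2 * (nu (Iio 2) * nu (Iio 2))
          ≤ ENNReal.ofReal (lam0 / 4) + ENNReal.ofReal (8 * lam0 ^ 2) := add_le_add b1 b2
        _ = ENNReal.ofReal (lam0 / 4 + 8 * lam0 ^ 2) := by
            rw [ENNReal.ofReal_add (by linarith [lam0_pos]) (by positivity)]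
        _ < ENNReal.ofReal (3 / 10 * lam0) := by
            rw [ENNReal.ofReal_lt_ofReal_iff (by linarith [lam0_pos])]
            unfold lam0
            norm_num
        _ ≤ K2 * 4⁻¹ := b3
  have hfin : meanCover lam0 lam0_pos 1 muTwo ≠ ⊤ := by
    refine ne_top_of_le_ne_top ?_ (le_self_add.trans hU)
    exact ENNReal.add_ne_top.mpr ⟨mean_ne_top, by norm_num⟩
  by_contra hcon
  push Not at hcon
  have h1 : meanCover lam0 lam0_pos 1 muTwo + K2 * 2⁻¹ ≤ meanCover lam0 lam0_pos 1 muTwo +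
      (K2 * 4⁻¹ + K1 * 2⁻¹ + 2 * (nu (Iio 2) * nu (Iio 2))) := by
    calc meanCover lam0 lam0_pos 1 muTwo + K2 * 2⁻¹ ≤ (∫⁻ u, ENNReal.ofReal u ∂nu) + 2 := hU
      _ ≤ meanCover lam0 lam0_pos 1 haarQ + (K2 * 4⁻¹ + K1 * 2⁻¹) +
          2 * (nu (Iio 2) * nu (Iio 2)) := hL
      _ ≤ meanCover lam0 lam0_pos 1 muTwo + (K2 * 4⁻¹ + K1 * 2⁻¹) +
          2 * (nu (Iio 2) * nu (Iio 2)) := by gcongr
      _ = _ := by ring
  exact absurd ((ENNReal.add_le_add_iff_left hfin).mp h1) (not_le.mpr hA)

instance : haarQ.IsAddLeftInvariant := by unfold haarQ; infer_instance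

theorem haarQ_isAddHaar : haarQ.IsAddHaarMeasure := by
  refine Measure.isAddHaarMeasure_of_isCompact_nonempty_interior haarQ univ isCompact_univ
    (by simp) ?_ ?_
  · simp
  · simp

/-- **The Haar measure need not minimise the mean cover time.**  There are a compact abelian group
`S` with a translation-invariant metric, rates `lam, v > 0`, and a Borel probability measure `μ`
whose mean cover time is strictly smaller than that of the Haar probability measure `m`. -/
theorem result : ∃ (S : Type) (_ : AddCommGroup S) (_ : MetricSpace S) (_ : IsTopologicalAddGroup S)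
    (_ : CompactSpace S) (_ : MeasurableSpace S) (_ : BorelSpace S) (m μ : Measure S)
    (_ : IsProbabilityMeasure m) (_ : IsProbabilityMeasure μ) (lam v : ℝ) (hlam : 0 < lam),
    (∀ g x y : S, dist (g + x) (g + y) = dist x y) ∧ m.IsAddHaarMeasure ∧ 0 < v ∧
      meanCover lam hlam v μ < meanCover lam hlam v m :=
  ⟨Q, inferInstance, inferInstance, inferInstance, inferInstance, inferInstance, inferInstance,
    haarQ, muTwo, inferInstance, inferInstance, lam0, 1, lam0_pos,
    fun g x y => dist_add_left g x y, haarQ_isAddHaar, one_pos, main⟩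

end Pool.Agent.Results.MP_b215e8_pr.HaarNotOptimal
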